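import Pool.Agent.U602.SM.Count

set_option autoImplicit false

/-! Integral combinations of functions whose second derivatives have distinct orders. -/

namespace Pool.Agent.U602.SM

open Finset Filter Topology
open Pool.Agent.W147.PS (ev_pow)

lemma unif {P : ℝ → Prop} (D : ℝ) (hD : 0 < D) (h : ∀ᶠ t : ℝ in atTop, P t) :
    ∀ᶠ X : ℝ in atTop, ∀ t, X / D ≤ t → P t := by
  obtain ⟨T, hT⟩ := eventually_atTop.1 h
  filter_upwards [(tendsto_id.atTop_div_const hD).eventually_ge_atTop T] with X hX t ht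
  exact hT t (hX.trans ht)

lemma rpow_between (u D X t : ℝ) (hD : 1 ≤ D) (hX : 0 < X) (h1 : X / D ≤ t) (h2 : t ≤ X) :
    D ^ (-|u|) * X ^ u ≤ t ^ u ∧ t ^ u ≤ D ^ |u| * X ^ u := by
  have hD0 : 0 < D := by linarith
  have hXD : 0 < X / D := by positivity
  have ht : 0 < t := by linarith
  have hDu : 1 ≤ D ^ |u| := Real.one_le_rpow hD (abs_nonneg _)
  have hDu' : D ^ (-|u|) ≤ 1 := by
    rw [Real.rpow_neg hD0.le]
    exact inv_le_one_of_one_le₀ hDu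
  have hXu : 0 < X ^ u := Real.rpow_pos_of_pos hX _
  have e1 : (X / D) ^ u = D ^ (-u) * X ^ u := by
    rw [Real.div_rpow hX.le hD0.le, Real.rpow_neg hD0.le]
    field_simp
  rcases le_total 0 u with hu | hu
  · rw [abs_of_nonneg hu] at *
    have e2 : (X / D) ^ u ≤ t ^ u := Real.rpow_le_rpow hXD.le h1 hu
    have e3 : t ^ u ≤ X ^ u := Real.rpow_le_rpow ht.le h2 hu
    rw [e1] at e2
    refine ⟨e2, ?_⟩
    nlinarith
  · rw [abs_of_nonpos hu] at *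
    have e2 : t ^ u ≤ (X / D) ^ u := Real.rpow_le_rpow_of_nonpos hXD h1 hu
    have e3 : X ^ u ≤ t ^ u := Real.rpow_le_rpow_of_nonpos ht h2 hu
    rw [e1] at e2
    refine ⟨?_, e2⟩
    nlinarith

lemma order_unif (c σ D : ℝ) (hσ : 0 < σ) (hD : 1 ≤ D) (F2 : ℝ → ℝ)
    (h : ∀ᶠ t : ℝ in atTop, t ^ (c - 2 - σ / 2) ≤ |F2 t| ∧ |F2 t| ≤ t ^ (c - 2 + σ / 2)) :
    ∀ᶠ X : ℝ in atTop, ∀ t, X / D ≤ t → t ≤ X →
      X ^ (c - 2 - σ) ≤ |F2 t| ∧ |F2 t| ≤ X ^ (c - 2 + σ) := by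
  filter_upwards [unif D (by linarith) h, eventually_ge_atTop (1 : ℝ),
    ev_pow (c - 2 - σ) (c - 2 - σ / 2) (D ^ |c - 2 - σ / 2|) (by linarith),
    ev_pow (c - 2 + σ / 2) (c - 2 + σ) (D ^ |c - 2 + σ / 2|) (by linarith)]
    with X hX hX1 h1 h2 t ht1 ht2
  have hX0 : 0 < X := by linarith
  have hD0 : 0 < D := by linarith
  obtain ⟨a1, a2⟩ := hX t ht1
  obtain ⟨b1, -⟩ := rpow_between (c - 2 - σ / 2) D X t hD hX0 ht1 ht2
  obtain ⟨-, b4⟩ := rpow_between (c - 2 + σ / 2) D X t hD hX0 ht1 ht2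
  refine ⟨?_, a2.trans (b4.trans h2)⟩
  refine le_trans ?_ (b1.trans a1)
  rw [Real.rpow_neg hD0.le, ← div_eq_inv_mul, le_div_iff₀ (Real.rpow_pos_of_pos hD0 _), mul_comm]
  exact h1

/-- integral combinations have the order of their largest term -/
lemma combo_bounds (r : ℕ) (c : Fin r → ℝ) (η D cm : ℝ) (hη : 0 < η) (hD : 1 ≤ D)
    (hc1 : ∀ j, 1 ≤ c j) (hcm : ∀ j, c j ≤ cm) (hgap : ∀ i j, i ≠ j → 4 * η ≤ |c i - c j|)
    (F2 : Fin r → ℝ → ℝ) (h : ∀ j, ∀ σ : ℝ, 0 < σ → ∀ᶠ t : ℝ in atTop,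
      t ^ (c j - 2 - σ) ≤ |F2 j t| ∧ |F2 j t| ≤ t ^ (c j - 2 + σ)) :
    ∀ᶠ X : ℝ in atTop, ∀ q : ℕ, 1 ≤ q → (q : ℝ) ≤ X ^ η → ∀ h : Fin r → ℤ, h ≠ 0 →
      (∀ j, |(h j : ℝ)| ≤ X ^ η) → ∃ c' : ℝ, 1 ≤ c' ∧ c' ≤ cm ∧ ∀ t, X / D ≤ t → t ≤ X →
        X ^ (c' - 2 - 3 * η) ≤ |∑ j, (h j : ℝ) * (F2 j t / q)| ∧
        |∑ j, (h j : ℝ) * (F2 j t / q)| ≤ X ^ (c' - 2 + 3 * η) := by
  have hall : ∀ᶠ X : ℝ in atTop, ∀ j, ∀ t, X / D ≤ t → t ≤ X →
      X ^ (c j - 2 - η) ≤ |F2 j t| ∧ |F2 j t| ≤ X ^ (c j - 2 + η) := by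
    rw [eventually_all]
    intro j
    exact order_unif (c j) η D hη hD (F2 j) (h j (η / 2) (by positivity))
  filter_upwards [hall, eventually_ge_atTop (1 : ℝ),
    (tendsto_rpow_atTop hη).eventually_ge_atTop ((r : ℝ) + 1)] with X hX hX1 hXr q hq1 hq2 h hh hh2
  have hX0 : 0 < X := by linarith
  have hq0 : (0 : ℝ) < q := by exact_mod_cast hq1
  have hq1R : (1 : ℝ) ≤ q := by exact_mod_cast hq1
  have hmono : ∀ x y : ℝ, x ≤ y → X ^ x ≤ X ^ y := fun x y h =>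
    Real.rpow_le_rpow_of_exponent_le hX1 h
  obtain ⟨j1, hj1⟩ : ∃ j, h j ≠ 0 := by
    by_contra hcon
    push Not at hcon
    exact hh (funext hcon)
  obtain ⟨j0, hj0, hmax⟩ := exists_max_image (univ.filter (fun j => h j ≠ 0)) c
    ⟨j1, by simp [hj1]⟩
  have hj0' : h j0 ≠ 0 := by simpa using hj0
  have hmax' : ∀ j, j ≠ j0 → h j ≠ 0 → c j ≤ c j0 - 4 * η := by
    intro j hj hj2
    have h1 := hmax j (by simp [hj2])
    have h2 := hgap j j0 hj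
    rw [abs_of_nonpos (by linarith)] at h2
    linarith
  refine ⟨c j0, hc1 j0, hcm j0, ?_⟩
  intro t ht1 ht2
  have hterm : ∀ j, j ≠ j0 → |(h j : ℝ) * (F2 j t / q)| ≤ X ^ (c j0 - 2 - 2 * η) / q := by
    intro j hj
    by_cases hj2 : h j = 0
    · rw [hj2]
      simp only [Int.cast_zero, zero_mul, abs_zero]
      positivity
    · rw [abs_mul, abs_div, abs_of_pos hq0, ← mul_div_assoc]
      have e1 := (hX j t ht1 ht2).2
      have e2 := hmax' j hj hj2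
      have e3 : |(h j : ℝ)| * |F2 j t| ≤ X ^ η * X ^ (c j - 2 + η) := by
        gcongr
        exact hh2 j
      rw [← Real.rpow_add hX0] at e3
      have e4 := hmono (η + (c j - 2 + η)) (c j0 - 2 - 2 * η) (by linarith)
      gcongr
      exact e3.trans e4
  have hmain1 : X ^ (c j0 - 2 - η) / q ≤ |(h j0 : ℝ) * (F2 j0 t / q)| := by
    rw [abs_mul, abs_div, abs_of_pos hq0, ← mul_div_assoc]
    have e1 := (hX j0 t ht1 ht2).1
    have e2 : (1 : ℝ) ≤ |(h j0 : ℝ)| := by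
      have := Int.one_le_abs hj0'
      exact_mod_cast this
    have e3 : |F2 j0 t| ≤ |(h j0 : ℝ)| * |F2 j0 t| := by
      have := abs_nonneg (F2 j0 t)
      nlinarith
    gcongr
    exact e1.trans e3
  have hmain2 : |(h j0 : ℝ) * (F2 j0 t / q)| ≤ X ^ (c j0 - 2 + 2 * η) := by
    rw [abs_mul, abs_div, abs_of_pos hq0, ← mul_div_assoc]
    have e1 := (hX j0 t ht1 ht2).2
    have e3 : |(h j0 : ℝ)| * |F2 j0 t| ≤ X ^ η * X ^ (c j0 - 2 + η) := by
      gcongr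
      exact hh2 j0
    rw [← Real.rpow_add hX0] at e3
    have e4 : η + (c j0 - 2 + η) = c j0 - 2 + 2 * η := by ring
    rw [e4] at e3
    refine (div_le_self (by positivity) hq1R).trans e3
  have hsplit : ∑ j, (h j : ℝ) * (F2 j t / q) = (h j0 : ℝ) * (F2 j0 t / q) +
      ∑ j ∈ univ.erase j0, (h j : ℝ) * (F2 j t / q) := (add_sum_erase _ _ (mem_univ j0)).symm
  have hcardr : ((univ.erase j0).card : ℝ) ≤ r := by
    have := card_le_card (erase_subset j0 (univ : Finset (Fin r)))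
    rw [card_univ, Fintype.card_fin] at this
    exact_mod_cast this
  have hrest : |∑ j ∈ univ.erase j0, (h j : ℝ) * (F2 j t / q)| ≤
      r * (X ^ (c j0 - 2 - 2 * η) / q) := by
    calc |∑ j ∈ univ.erase j0, (h j : ℝ) * (F2 j t / q)|
        ≤ ∑ j ∈ univ.erase j0, |(h j : ℝ) * (F2 j t / q)| := abs_sum_le_sum_abs _ _
      _ ≤ ∑ j ∈ univ.erase j0, X ^ (c j0 - 2 - 2 * η) / q :=
          sum_le_sum fun j hj => hterm j (ne_of_mem_erase hj)
      _ = (univ.erase j0).card * (X ^ (c j0 - 2 - 2 * η) / q) := by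
          rw [sum_const, nsmul_eq_mul]
      _ ≤ _ := by gcongr
  rw [hsplit]
  have hP : 0 < X ^ (c j0 - 2 - 2 * η) := Real.rpow_pos_of_pos hX0 _
  constructor
  · have e1 : |(h j0 : ℝ) * (F2 j0 t / q)| -
        |∑ j ∈ univ.erase j0, (h j : ℝ) * (F2 j t / q)| ≤
        |(h j0 : ℝ) * (F2 j0 t / q) + ∑ j ∈ univ.erase j0, (h j : ℝ) * (F2 j t / q)| := by
      have := abs_sub_abs_le_abs_sub ((h j0 : ℝ) * (F2 j0 t / q))
        (-∑ j ∈ univ.erase j0, (h j : ℝ) * (F2 j t / q))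
      rwa [abs_neg, sub_neg_eq_add] at this
    refine le_trans ?_ e1
    have e2 : X ^ (c j0 - 2 - η) = X ^ (c j0 - 2 - 2 * η) * X ^ η := by
      rw [← Real.rpow_add hX0]
      congr 1
      ring
    have e3 : X ^ (c j0 - 2 - 3 * η) * q ≤ X ^ (c j0 - 2 - 2 * η) := by
      calc X ^ (c j0 - 2 - 3 * η) * q ≤ X ^ (c j0 - 2 - 3 * η) * X ^ η := by gcongr
        _ = _ := by
          rw [← Real.rpow_add hX0]
          congr 1
          ring
    have e4 : X ^ (c j0 - 2 - 3 * η) ≤ X ^ (c j0 - 2 - 2 * η) / q := by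
      rwa [le_div_iff₀ hq0]
    have e5 : ((r : ℝ) + 1) * (X ^ (c j0 - 2 - 2 * η) / q) ≤ X ^ (c j0 - 2 - η) / q := by
      rw [← mul_div_assoc]
      gcongr
      rw [e2, mul_comm]
      gcongr
    linarith
  · refine (abs_add_le _ _).trans ?_
    have e2 : X ^ (c j0 - 2 + 3 * η) = X ^ (c j0 - 2 + 2 * η) * X ^ η := by
      rw [← Real.rpow_add hX0]
      congr 1
      ring
    have e3 : r * (X ^ (c j0 - 2 - 2 * η) / q) ≤ r * X ^ (c j0 - 2 + 2 * η) := by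
      gcongr
      refine (div_le_self (by positivity) hq1R).trans (hmono _ _ (by linarith))
    rw [e2]
    have hP2 : 0 < X ^ (c j0 - 2 + 2 * η) := Real.rpow_pos_of_pos hX0 _
    nlinarith

end Pool.Agent.U602.SM
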