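import Pool.Agent.Y961.JR.ScaledJ

set_option autoImplicit false

/-! Counting the points of a slowly turning sequence which are close to an integer, and the linear
approximation of a function in a sum. -/

namespace Pool.Agent.U602.SM

open Finset Filter Topology
open Pool.Agent.H469R2.NK (e norm_e e_add e_zero)

lemma e_sub_le (α β : ℝ) : ‖e α - e β‖ ≤ 2 * Real.pi * |α - β| := by
  have h1 : e α = e (α - β) * e β := by
    rw [← e_add, sub_add_cancel]
  have h2 : e α - e β = (e (α - β) - 1) * e β := by rw [h1]; ring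
  rw [h2, norm_mul, norm_e, mul_one]
  have h3 := Real.norm_exp_I_mul_ofReal_sub_one_le (x := 2 * Real.pi * (α - β))
  have h4 : e (α - β) = Complex.exp (Complex.I * ((2 * Real.pi * (α - β) : ℝ) : ℂ)) := by
    rw [e, mul_comm]
  rw [h4]
  refine h3.trans (le_of_eq ?_)
  rw [Real.norm_eq_abs, abs_mul, abs_of_pos (show (0 : ℝ) < 2 * Real.pi by positivity)]

open scoped Classical in
/-- few points of a sequence with separated values are close to an integer -/
lemma count_close (g : ℕ → ℝ) (W : ℕ) (lam V ρ : ℝ) (hlam : 0 < lam) (hρ : 0 < ρ) (hρ1 : ρ ≤ 1)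
    (hV : 0 ≤ V) (h1 : ∀ w < W, ∀ w' < W, lam * |(w : ℝ) - w'| ≤ |g w - g w'|)
    (h2 : ∀ w < W, ∀ w' < W, |g w - g w'| ≤ V) :
    (((range W).filter (fun w => ∃ k : ℤ, |g w - k| < ρ)).card : ℝ) ≤
      (2 * V + 3) * (2 * ρ / lam + 1) := by
  have hnn : 0 ≤ (2 * V + 3) * (2 * ρ / lam + 1) := by positivity
  rcases Nat.eq_zero_or_pos W with hW | hW
  · rw [hW]
    simpa using hnn
  have hk : ∀ w : ℕ, ∃ k : ℤ, (∃ k : ℤ, |g w - k| < ρ) → |g w - k| < ρ := by
    intro w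
    by_cases h : ∃ k : ℤ, |g w - k| < ρ
    · obtain ⟨k, hk⟩ := h
      exact ⟨k, fun _ => hk⟩
    · exact ⟨0, fun h' => absurd h' h⟩
  choose k hk using hk
  set S : Finset ℕ := (range W).filter (fun w => ∃ k : ℤ, |g w - k| < ρ) with hS
  have hSm : ∀ w ∈ S, w < W ∧ |g w - k w| < ρ := by
    intro w hw
    rw [hS, mem_filter, mem_range] at hw
    exact ⟨hw.1, hk w hw.2⟩
  -- the integers
  set I : Finset ℤ := Icc (⌈g 0 - V - ρ⌉) (⌊g 0 + V + ρ⌋) with hI
  have hmaps : ∀ w ∈ S, k w ∈ I := by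
    intro w hw
    obtain ⟨e1, e2⟩ := hSm w hw
    have e3 := abs_le.1 (h2 w e1 0 hW)
    have e4 := abs_lt.1 e2
    rw [hI, mem_Icc]
    constructor
    · apply Int.ceil_le.2
      linarith [e3.1, e4.2]
    · apply Int.le_floor.2
      linarith [e3.2, e4.1]
  have hIcard : (I.card : ℝ) ≤ 2 * V + 3 := by
    rw [hI, Int.card_Icc]
    have e1 : ((⌊g 0 + V + ρ⌋ : ℤ) : ℝ) ≤ g 0 + V + ρ := Int.floor_le _
    have e2 : g 0 - V - ρ ≤ ((⌈g 0 - V - ρ⌉ : ℤ) : ℝ) := Int.le_ceil _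
    have e3 : (((⌊g 0 + V + ρ⌋ + 1 - ⌈g 0 - V - ρ⌉).toNat : ℕ) : ℤ) ≤
        max (⌊g 0 + V + ρ⌋ + 1 - ⌈g 0 - V - ρ⌉) 0 := by omega
    have e4 : ((((⌊g 0 + V + ρ⌋ + 1 - ⌈g 0 - V - ρ⌉).toNat : ℕ) : ℤ) : ℝ) ≤
        ((max (⌊g 0 + V + ρ⌋ + 1 - ⌈g 0 - V - ρ⌉) 0 : ℤ) : ℝ) := by exact_mod_cast e3
    rw [Int.cast_natCast] at e4
    refine e4.trans ?_
    push_cast
    apply max_le
    · linarith
    · linarith
  have hfib : ∀ z ∈ I, ((S.filter (fun w => k w = z)).card : ℝ) ≤ 2 * ρ / lam + 1 := by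
    intro z _
    rcases (S.filter (fun w => k w = z)).eq_empty_or_nonempty with he | hne
    · rw [he]
      simp
      positivity
    · set F := S.filter (fun w => k w = z) with hF
      have hm1 := F.min'_mem hne
      have hm2 := F.max'_mem hne
      set a := F.min' hne with ha
      set b := F.max' hne with hb
      have hab : a ≤ b := F.min'_le_max' hne
      have e1 : F ⊆ Icc a b := by
        intro w hw
        rw [mem_Icc]
        exact ⟨F.min'_le w hw, F.le_max' w hw⟩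
      have e2 := card_le_card e1
      rw [Nat.card_Icc] at e2
      have e3 : (F.card : ℝ) ≤ (b : ℝ) - a + 1 := by
        have : ((b + 1 - a : ℕ) : ℝ) = (b : ℝ) - a + 1 := by
          rw [Nat.cast_sub (by omega)]
          push_cast
          ring
        rw [← this]
        exact_mod_cast e2
      rw [hF, mem_filter] at hm1 hm2
      obtain ⟨a1, a2⟩ := hSm a hm1.1
      obtain ⟨b1, b2⟩ := hSm b hm2.1
      have e4 := h1 b b1 a a1
      rw [hm1.2] at a2
      rw [hm2.2] at b2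
      have e5 : |g b - g a| ≤ 2 * ρ := by
        have e6 := abs_lt.1 a2
        have e7 := abs_lt.1 b2
        rw [abs_le]
        constructor <;> linarith [e6.1, e6.2, e7.1, e7.2]
      have e6 : lam * ((b : ℝ) - a) ≤ 2 * ρ := by
        have : |(b : ℝ) - a| = (b : ℝ) - a := abs_of_nonneg (by
          have : (a : ℝ) ≤ b := by exact_mod_cast hab
          linarith)
        rw [this] at e4
        linarith
      have e7 : (b : ℝ) - a ≤ 2 * ρ / lam := by
        rw [le_div_iff₀ hlam]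
        linarith
      linarith
  have h3 : S.card = ∑ z ∈ I, (S.filter (fun w => k w = z)).card :=
    card_eq_sum_card_fiberwise (fun w hw => hmaps w hw)
  have h4 : (S.card : ℝ) = ∑ z ∈ I, ((S.filter (fun w => k w = z)).card : ℝ) := by
    exact_mod_cast h3
  rw [h4]
  calc ∑ z ∈ I, ((S.filter (fun w => k w = z)).card : ℝ) ≤ ∑ z ∈ I, (2 * ρ / lam + 1) :=
        sum_le_sum hfib
    _ = I.card * (2 * ρ / lam + 1) := by rw [sum_const, nsmul_eq_mul]
    _ ≤ _ := by gcongr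

/-- the linear approximation of a function with a small second derivative -/
lemma linear_approx (F F1 F2 : ℝ → ℝ) (N0 B Λ : ℝ) (hB : 0 ≤ B)
    (h1 : ∀ t, N0 ≤ t → t ≤ N0 + B → HasDerivAt F (F1 t) t)
    (h2 : ∀ t, N0 ≤ t → t ≤ N0 + B → HasDerivAt F1 (F2 t) t)
    (h3 : ∀ t, N0 ≤ t → t ≤ N0 + B → |F2 t| ≤ Λ) (m : ℝ) (hm0 : 0 ≤ m) (hm : m ≤ B) :
    |F (N0 + m) - (F N0 + F1 N0 * m)| ≤ Λ * B ^ 2 := by
  have hΛ : 0 ≤ Λ := (abs_nonneg _).trans (h3 N0 le_rfl (by linarith))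
  rcases hm0.eq_or_lt with h | h
  · rw [← h]
    simp
    positivity
  · have hd1 : ∀ t ∈ Set.Icc N0 (N0 + m), HasDerivAt F (F1 t) t := fun t ht =>
      h1 t ht.1 (ht.2.trans (by linarith))
    obtain ⟨ξ, hξ, hξ2⟩ := exists_hasDerivAt_eq_slope F F1 (show N0 < N0 + m by linarith)
      (fun t ht => (hd1 t ht).continuousAt.continuousWithinAt)
      (fun t ht => hd1 t ⟨ht.1.le, ht.2.le⟩)
    obtain ⟨ξ', hξ', hξ2'⟩ := exists_hasDerivAt_eq_slope F1 F2 hξ.1
      (fun t ht => (h2 t ht.1 (ht.2.trans (by linarith [hξ.2]))).continuousAt.continuousWithinAt)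
      (fun t ht => h2 t ht.1.le (by linarith [hξ.2, ht.2]))
    have e1 : F (N0 + m) - F N0 = F1 ξ * m := by
      have : N0 + m - N0 = m := by ring
      rw [hξ2, this, div_mul_cancel₀ _ h.ne']
    have e2 : F1 ξ - F1 N0 = F2 ξ' * (ξ - N0) := by
      have : ξ - N0 ≠ 0 := by linarith [hξ.1]
      rw [hξ2']
      field_simp
    have e3 : F (N0 + m) - (F N0 + F1 N0 * m) = F2 ξ' * (ξ - N0) * m := by
      rw [← e2]
      linarith
    rw [e3, abs_mul, abs_mul, abs_of_pos h, abs_of_pos (show 0 < ξ - N0 by linarith [hξ.1])]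
    have e4 := h3 ξ' hξ'.1.le (by linarith [hξ'.2, hξ.2])
    have e5 : ξ - N0 ≤ B := by linarith [hξ.2]
    have e6 : 0 ≤ ξ - N0 := by linarith [hξ.1]
    calc |F2 ξ'| * (ξ - N0) * m ≤ Λ * B * B := by gcongr
      _ = _ := by ring

/-- the mean value theorem in both directions -/
lemma diff_bounds (F1 F2 : ℝ → ℝ) (a b lam Λ : ℝ)
    (h2 : ∀ t, a ≤ t → t ≤ b → HasDerivAt F1 (F2 t) t)
    (h3 : ∀ t, a ≤ t → t ≤ b → lam ≤ |F2 t| ∧ |F2 t| ≤ Λ) (x y : ℝ) (hx : a ≤ x) (hx' : x ≤ b)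
    (hy : a ≤ y) (hy' : y ≤ b) :
    lam * |x - y| ≤ |F1 x - F1 y| ∧ |F1 x - F1 y| ≤ Λ * |x - y| := by
  have key : ∀ x y : ℝ, a ≤ x → y ≤ b → x < y →
      lam * |x - y| ≤ |F1 x - F1 y| ∧ |F1 x - F1 y| ≤ Λ * |x - y| := by
    intro x y hx hy hxy
    obtain ⟨ξ, hξ, hξ2⟩ := exists_hasDerivAt_eq_slope F1 F2 hxy
      (fun t ht => (h2 t (hx.trans ht.1) (ht.2.trans hy)).continuousAt.continuousWithinAt)
      (fun t ht => h2 t (hx.trans ht.1.le) (ht.2.le.trans hy))
    have e1 : F1 x - F1 y = F2 ξ * (x - y) := by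
      have : y - x ≠ 0 := by linarith
      rw [hξ2]
      field_simp
      ring
    obtain ⟨e2, e3⟩ := h3 ξ (hx.trans hξ.1.le) (hξ.2.le.trans hy)
    rw [e1, abs_mul]
    exact ⟨mul_le_mul_of_nonneg_right e2 (abs_nonneg _),
      mul_le_mul_of_nonneg_right e3 (abs_nonneg _)⟩
  rcases lt_trichotomy x y with h | h | h
  · exact key x y hx hy' h
  · rw [h]
    simp
  · obtain ⟨e1, e2⟩ := key y x hy hx' h
    rw [abs_sub_comm x y, abs_sub_comm (F1 x) (F1 y)]
    exact ⟨e1, e2⟩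

end Pool.Agent.U602.SM
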