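import Pool.Agent.U602.SM.Local

set_option autoImplicit false
set_option linter.unusedSectionVars false

/-! Few blocks are bad. -/

namespace Pool.Agent.U602.SM

open Finset Filter Topology
open Pool.Agent.W147.PS (ev_pow)

open scoped Classical in
/-- one frequency -/
lemma bad_one (b : ℕ) (hb : 2 ≤ b) (nQ : ℕ) (r : ℕ) (cm ε₁ η : ℝ) (hε₁ : 0 < ε₁)
    (hη : 0 < η) (hε₂ : 4 * ε₁ ≤ 2 - cm) (hε₃ : 4 * ε₁ ≤ 1) (hη2 : ((r : ℝ) + 6) * η ≤ ε₁)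
    (n₁ : ℕ) (hn₁ : 1 ≤ n₁) :
    ∀ᶠ X : ℝ in atTop, ∀ L K : ℕ, (b : ℝ) ^ (L + L) ≤ X ^ ε₁ →
      (b : ℝ) ^ K * (((n₁ : ℝ) + 1) * (b : ℝ) ^ (L + L)) ≤ X →
      X < (b : ℝ) ^ (K + 1) * (((n₁ : ℝ) + 1) * (b : ℝ) ^ (L + L)) →
      ∀ (F1 F2 : ℝ → ℝ) (c' : ℝ), 1 ≤ c' → c' ≤ cm →
      (∀ t, X / (2 * b) ≤ t → HasDerivAt F1 (F2 t) t) →
      (∀ t, X / (2 * b) ≤ t → t ≤ X → X ^ (c' - 2 - 3 * η) ≤ |F2 t| ∧
        |F2 t| ≤ X ^ (c' - 2 + 3 * η)) →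
      ∀ q₀ : ℕ, 1 ≤ q₀ → q₀ ≤ nQ →
      (((range (b ^ K)).filter (fun w => ∃ k : ℤ, |q₀ * ((b : ℝ) ^ L *
        F1 ((b ^ (L + L) * (b ^ K * n₁ + w) : ℕ) : ℝ)) - k| < X ^ (-((r + 10) * η)))).card : ℝ) ≤
        X / (b : ℝ) ^ (L + L) * X ^ (-((r + 3) * η)) := by
  have hbR : (2 : ℝ) ≤ b := by exact_mod_cast hb
  have hrR : (0 : ℝ) ≤ r := Nat.cast_nonneg r
  filter_upwards [eventually_ge_atTop (1 : ℝ),
    ev_pow (-((r + 4) * η)) (-((r + 3) * η)) (16 * nQ) (by linarith),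
    ev_pow (-((r + 7) * η)) (-((r + 3) * η)) 24 (by linarith),
    ev_pow (ε₁ / 2 + cm - 1 + 3 * η) (1 - ε₁ - (r + 3) * η) (8 * nQ) (by nlinarith),
    ev_pow 0 (1 - ε₁ - (r + 3) * η) 12 (by nlinarith)]
    with X hX1 p1 p2 p3 p4
  intro L K hL2 hK1 hK2 F1 F2 c' hc'1 hc'm hd hF2 q₀ hq1 hq2
  have hX0 : 0 < X := by linarith
  set B : ℝ := (b : ℝ) ^ (L + L) with hB
  have hB0 : 0 < B := by positivity
  have hbL1 : 1 ≤ (b : ℝ) ^ L := one_le_pow₀ (by linarith)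
  have hbL0 : 0 < (b : ℝ) ^ L := by linarith
  have hBL : B = (b : ℝ) ^ L * (b : ℝ) ^ L := by rw [hB, pow_add]
  have hbLX : (b : ℝ) ^ L ≤ X ^ (ε₁ / 2) := by
    have e1 : (b : ℝ) ^ L = B ^ (1 / 2 : ℝ) := by
      rw [hBL, ← sq, ← Real.sqrt_eq_rpow, Real.sqrt_sq hbL0.le]
    have e2 : X ^ (ε₁ / 2) = (X ^ ε₁) ^ (1 / 2 : ℝ) := by
      rw [← Real.rpow_mul hX0.le]
      congr 1
      ring
    rw [e1, e2]
    exact Real.rpow_le_rpow hB0.le hL2 (by norm_num)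
  have hn₁R : (1 : ℝ) ≤ n₁ := by exact_mod_cast hn₁
  set N : ℕ → ℝ := fun w => ((b ^ (L + L) * (b ^ K * n₁ + w) : ℕ) : ℝ) with hN
  have hNe : ∀ w, N w = B * ((b : ℝ) ^ K * n₁ + w) := by
    intro w
    rw [hN]
    simp only
    push_cast
    rw [hB]
  have hNlo : ∀ w, X / (2 * b) ≤ N w := by
    intro w
    rw [hNe, div_le_iff₀ (by positivity)]
    have e1 : (0 : ℝ) ≤ w := Nat.cast_nonneg w
    have e2 : 0 < (b : ℝ) ^ K := by positivity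
    calc X ≤ (b : ℝ) ^ (K + 1) * (((n₁ : ℝ) + 1) * B) := hK2.le
      _ ≤ (b : ℝ) ^ (K + 1) * ((2 * n₁) * B) := by gcongr; linarith
      _ = B * ((b : ℝ) ^ K * n₁ + 0) * (2 * b) := by rw [pow_succ]; ring
      _ ≤ _ := by gcongr
  have hNhi : ∀ w < b ^ K, N w ≤ X := by
    intro w hw
    rw [hNe]
    have e1 : (w : ℝ) ≤ (b : ℝ) ^ K := by
      have : ((w : ℕ) : ℝ) ≤ ((b ^ K : ℕ) : ℝ) := by exact_mod_cast hw.le
      refine this.trans (le_of_eq (by push_cast; rfl))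
    calc B * ((b : ℝ) ^ K * n₁ + w) ≤ B * ((b : ℝ) ^ K * n₁ + (b : ℝ) ^ K) := by gcongr
      _ = (b : ℝ) ^ K * (((n₁ : ℝ) + 1) * B) := by ring
      _ ≤ X := hK1
  have hNd : ∀ w w', |N w - N w'| = B * |(w : ℝ) - w'| := by
    intro w w'
    rw [hNe, hNe]
    have : B * ((b : ℝ) ^ K * n₁ + w) - B * ((b : ℝ) ^ K * n₁ + w') = B * ((w : ℝ) - w') := by ring
    rw [this, abs_mul, abs_of_pos hB0]
  have hNd2 : ∀ w < b ^ K, ∀ w' < b ^ K, |N w - N w'| ≤ X := by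
    intro w hw w' hw'
    have e1 := hNhi w hw
    have e2 := hNhi w' hw'
    have e3 : 0 ≤ N w := (by positivity : 0 ≤ X / (2 * b)).trans (hNlo w)
    have e4 : 0 ≤ N w' := (by positivity : 0 ≤ X / (2 * b)).trans (hNlo w')
    rw [abs_le]
    constructor <;> linarith
  set lam : ℝ := (b : ℝ) ^ L * X ^ (c' - 2 - 3 * η) * B with hlam
  set V : ℝ := nQ * ((b : ℝ) ^ L * X ^ (c' - 2 + 3 * η) * X) with hV
  set ρ : ℝ := X ^ (-((r + 10) * η)) with hρ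
  have hlam0 : 0 < lam := by positivity
  have hV0 : 0 ≤ V := by positivity
  have hρ0 : 0 < ρ := by positivity
  have hρ1 : ρ ≤ 1 := Real.rpow_le_one_of_one_le_of_nonpos hX1 (by nlinarith)
  have hq1R : (1 : ℝ) ≤ q₀ := by exact_mod_cast hq1
  have hq2R : (q₀ : ℝ) ≤ nQ := by exact_mod_cast hq2
  have hdb : ∀ w < b ^ K, ∀ w' < b ^ K,
      X ^ (c' - 2 - 3 * η) * |N w - N w'| ≤ |F1 (N w) - F1 (N w')| ∧
        |F1 (N w) - F1 (N w')| ≤ X ^ (c' - 2 + 3 * η) * |N w - N w'| := by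
    intro w hw w' hw'
    exact diff_bounds F1 F2 (X / (2 * b)) X _ _ (fun t ht _ => hd t ht)
      (fun t ht1 ht2 => hF2 t ht1 ht2) _ _ (hNlo w) (hNhi w hw) (hNlo w') (hNhi w' hw')
  have hcnt := count_close (fun w => q₀ * ((b : ℝ) ^ L * F1 (N w))) (b ^ K) lam V ρ hlam0 hρ0 hρ1
    hV0 (by
      intro w hw w' hw'
      have e1 : (q₀ : ℝ) * ((b : ℝ) ^ L * F1 (N w)) - q₀ * ((b : ℝ) ^ L * F1 (N w')) =
          q₀ * (b : ℝ) ^ L * (F1 (N w) - F1 (N w')) := by ring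
      rw [e1, abs_mul, abs_of_pos (show (0 : ℝ) < q₀ * (b : ℝ) ^ L by positivity)]
      have e2 := (hdb w hw w' hw').1
      rw [hNd] at e2
      calc lam * |(w : ℝ) - w'| = 1 * (b : ℝ) ^ L * (X ^ (c' - 2 - 3 * η) * (B * |(w : ℝ) - w'|)) := by
            rw [hlam]; ring
        _ ≤ _ := by gcongr) (by
      intro w hw w' hw'
      have e1 : (q₀ : ℝ) * ((b : ℝ) ^ L * F1 (N w)) - q₀ * ((b : ℝ) ^ L * F1 (N w')) =
          q₀ * ((b : ℝ) ^ L * (F1 (N w) - F1 (N w'))) := by ring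
      rw [e1, abs_mul, abs_of_pos (show (0 : ℝ) < q₀ by positivity), abs_mul, abs_of_pos hbL0]
      have e2 := (hdb w hw w' hw').2
      have e3 := hNd2 w hw w' hw'
      calc (q₀ : ℝ) * ((b : ℝ) ^ L * |F1 (N w) - F1 (N w')|) ≤
            nQ * ((b : ℝ) ^ L * (X ^ (c' - 2 + 3 * η) * |N w - N w'|)) := by gcongr
        _ ≤ nQ * ((b : ℝ) ^ L * (X ^ (c' - 2 + 3 * η) * X)) := by gcongr
        _ = V := by rw [hV]; ring)
  refine hcnt.trans ?_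
  -- the four terms
  have hY : X ^ (1 - ε₁) ≤ X / B := by
    rw [le_div_iff₀ hB0]
    calc X ^ (1 - ε₁) * B ≤ X ^ (1 - ε₁) * X ^ ε₁ := by gcongr
      _ = X := by
        rw [← Real.rpow_add hX0]
        have : 1 - ε₁ + ε₁ = 1 := by ring
        rw [this, Real.rpow_one]
  have hY0 : 0 < X / B := by positivity
  have hZ : X ^ (1 - ε₁ - (r + 3) * η) ≤ X / B * X ^ (-((r + 3) * η)) := by
    have : 1 - ε₁ - (r + 3) * η = (1 - ε₁) + (-((r + 3) * η)) := by ring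
    rw [this, Real.rpow_add hX0]
    gcongr
  set Z : ℝ := X / B * X ^ (-((r + 3) * η)) with hZd
  have t1 : 4 * V * ρ / lam ≤ Z / 4 := by
    have e1 : 4 * V * ρ / lam = X / B * (16 * nQ * X ^ (-((r + 4) * η))) / 4 := by
      have e2 : X ^ (-((r + 4) * η)) * X ^ (c' - 2 - 3 * η) = X ^ (c' - 2 + 3 * η) * ρ := by
        rw [hρ, ← Real.rpow_add hX0, ← Real.rpow_add hX0]
        congr 1
        ring
      have e3 : (0 : ℝ) < X ^ (c' - 2 - 3 * η) := by positivity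
      have e5 : 4 * V * ρ = 4 * nQ * X * (b : ℝ) ^ L * (X ^ (c' - 2 + 3 * η) * ρ) := by
        rw [hV]; ring
      rw [e5, ← e2, hlam]
      field_simp
      ring
    rw [e1]
    have e4 : X / B * (16 * nQ * X ^ (-((r + 4) * η))) ≤ Z := by
      rw [hZd]; gcongr
    linarith
  have t2 : 2 * V ≤ Z / 4 := by
    have e1 : V ≤ nQ * X ^ (ε₁ / 2 + cm - 1 + 3 * η) := by
      rw [hV]
      apply mul_le_mul_of_nonneg_left _ (Nat.cast_nonneg _)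
      have e2 : X ^ (ε₁ / 2 + cm - 1 + 3 * η) = X ^ (ε₁ / 2) * X ^ (cm - 2 + 3 * η) * X := by
        nth_rewrite 4 [← Real.rpow_one X]
        rw [← Real.rpow_add hX0, ← Real.rpow_add hX0]
        congr 1
        ring
      rw [e2]
      have e3 : X ^ (c' - 2 + 3 * η) ≤ X ^ (cm - 2 + 3 * η) :=
        Real.rpow_le_rpow_of_exponent_le hX1 (by linarith)
      gcongr
    linarith
  have t3 : 6 * ρ / lam ≤ Z / 4 := by
    have e1 : ρ / lam ≤ X / B * X ^ (-((r + 7) * η)) := by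
      rw [div_le_iff₀ hlam0, hlam]
      have e2 : ρ ≤ X * X ^ (-((r + 7) * η)) * X ^ (c' - 2 - 3 * η) := by
        nth_rewrite 1 [← Real.rpow_one X]
        rw [hρ, ← Real.rpow_add hX0, ← Real.rpow_add hX0]
        apply Real.rpow_le_rpow_of_exponent_le hX1
        linarith
      have e3 : X / B * X ^ (-((r + 7) * η)) * ((b : ℝ) ^ L * X ^ (c' - 2 - 3 * η) * B) =
          (b : ℝ) ^ L * (X * X ^ (-((r + 7) * η)) * X ^ (c' - 2 - 3 * η)) := by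
        field_simp
      rw [e3]
      have e4 : 0 ≤ X * X ^ (-((r + 7) * η)) * X ^ (c' - 2 - 3 * η) := by positivity
      nlinarith
    have e4 : X / B * (24 * X ^ (-((r + 7) * η))) ≤ Z := by
      rw [hZd]; gcongr
    have e5 : 6 * ρ / lam = 6 * (ρ / lam) := by ring
    rw [e5]
    linarith
  have t4 : 3 ≤ Z / 4 := by
    rw [Real.rpow_zero] at p4
    linarith
  have e0 : (2 * V + 3) * (2 * ρ / lam + 1) = 4 * V * ρ / lam + 2 * V + 6 * ρ / lam + 3 := by ring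
  rw [e0]
  refine (add_le_add (add_le_add (add_le_add t1 t2) t3) t4).trans (le_of_eq ?_)
  ring

open scoped Classical in
/-- few blocks are bad -/
theorem bad_count (b : ℕ) (hb : 2 ≤ b) (nQ : ℕ) (r : ℕ) (hr : 1 ≤ r) (c : Fin r → ℝ) (cm : ℝ)
    (hc1 : ∀ j, 1 ≤ c j) (hcm : ∀ j, c j ≤ cm) (g0 : ℝ)
    (hgap : ∀ i j, i ≠ j → g0 ≤ |c i - c j|)
    (f1 f2 : Fin r → ℝ → ℝ)
    (hd2 : ∀ j, ∀ᶠ t : ℝ in atTop, HasDerivAt (f1 j) (f2 j t) t)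
    (hord : ∀ j, ∀ σ : ℝ, 0 < σ → ∀ᶠ t : ℝ in atTop,
      t ^ (c j - 2 - σ) ≤ |f2 j t| ∧ |f2 j t| ≤ t ^ (c j - 2 + σ))
    (ε₁ η : ℝ) (hε₁ : 0 < ε₁) (hη : 0 < η) (hη0 : 4 * η ≤ g0)
    (hε₂ : 4 * ε₁ ≤ 2 - cm) (hε₃ : 4 * ε₁ ≤ 1) (hη2 : ((r : ℝ) + 6) * η ≤ ε₁)
    (n₁ : ℕ) (hn₁ : 1 ≤ n₁) :
    ∀ᶠ X : ℝ in atTop, ∀ L K : ℕ, (b : ℝ) ^ (L + L) ≤ X ^ ε₁ →
      (b : ℝ) ^ K * (((n₁ : ℝ) + 1) * (b : ℝ) ^ (L + L)) ≤ X →
      X < (b : ℝ) ^ (K + 1) * (((n₁ : ℝ) + 1) * (b : ℝ) ^ (L + L)) →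
      (((range (b ^ K)).filter (fun w => ¬ ∀ q : ℕ, 1 ≤ q → (q : ℝ) ≤ X ^ η →
        ∀ h : Fin r → ℤ, h ≠ 0 → (∀ j, |(h j : ℝ)| ≤ X ^ η) →
        ∀ q₀ : ℕ, 1 ≤ q₀ → q₀ ≤ nQ → ∀ k : ℤ, X ^ (-((r + 10) * η)) ≤
          |q₀ * ((b : ℝ) ^ L * ∑ j, (h j : ℝ) *
            (f1 j ((b ^ (L + L) * (b ^ K * n₁ + w) : ℕ) : ℝ) / q)) - k|)).card : ℝ) ≤
        (b : ℝ) ^ K * X ^ (-η) := by
  have hbR : (2 : ℝ) ≤ b := by exact_mod_cast hb
  have hrR : (1 : ℝ) ≤ r := by exact_mod_cast hr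
  have hd2' : ∀ᶠ t : ℝ in atTop, ∀ j, HasDerivAt (f1 j) (f2 j t) t := eventually_all.2 hd2
  filter_upwards [bad_one b hb nQ r cm ε₁ η hε₁ hη hε₂ hε₃ hη2 n₁ hn₁,
    combo_bounds r c η (2 * b) cm hη (by linarith) hc1 hcm
      (fun i j hij => by linarith [hgap i j hij]) f2 hord,
    unif (2 * b) (by positivity) hd2', eventually_ge_atTop (1 : ℝ),
    ev_pow (-(2 * η)) (-η) (nQ * 3 ^ r * (b * (n₁ + 1))) (by linarith)]
    with X hone hcombo hXd2 hX1 p1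
  intro L K hL2 hK1 hK2
  have hX0 : 0 < X := by linarith
  have hXη : 1 ≤ X ^ η := Real.one_le_rpow hX1 hη.le
  set B : ℝ := (b : ℝ) ^ (L + L) with hB
  have hB0 : 0 < B := by positivity
  set H : ℕ := ⌊X ^ η⌋₊ with hH
  have hHX : (H : ℝ) ≤ X ^ η := Nat.floor_le (by positivity)
  set J : Finset ((ℕ × (Fin r → ℤ)) × ℕ) :=
    (((Icc 1 H) ×ˢ (Fintype.piFinset fun _ => Icc (-(H : ℤ)) H)) ×ˢ (Icc 1 nQ)).filter
      (fun p => p.1.2 ≠ 0) with hJ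
  set bad : (ℕ × (Fin r → ℤ)) × ℕ → Finset ℕ := fun p => (range (b ^ K)).filter (fun w =>
    ∃ k : ℤ, |(p.2 : ℝ) * ((b : ℝ) ^ L * ∑ j, (p.1.2 j : ℝ) *
      (f1 j ((b ^ (L + L) * (b ^ K * n₁ + w) : ℕ) : ℝ) / p.1.1)) - k| < X ^ (-((r + 10) * η)))
    with hbad
  have hsub : ((range (b ^ K)).filter (fun w => ¬ ∀ q : ℕ, 1 ≤ q → (q : ℝ) ≤ X ^ η →
        ∀ h : Fin r → ℤ, h ≠ 0 → (∀ j, |(h j : ℝ)| ≤ X ^ η) →
        ∀ q₀ : ℕ, 1 ≤ q₀ → q₀ ≤ nQ → ∀ k : ℤ, X ^ (-((r + 10) * η)) ≤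
          |q₀ * ((b : ℝ) ^ L * ∑ j, (h j : ℝ) *
            (f1 j ((b ^ (L + L) * (b ^ K * n₁ + w) : ℕ) : ℝ) / q)) - k|)) ⊆ J.biUnion bad := by
    intro w hw
    rw [mem_filter] at hw
    obtain ⟨hw1, hw2⟩ := hw
    push Not at hw2
    obtain ⟨q, hq1, hq2, h, hh, hh2, q₀, hq3, hq4, k, hk⟩ := hw2
    rw [mem_biUnion]
    refine ⟨((q, h), q₀), ?_, ?_⟩
    · rw [hJ, mem_filter]
      refine ⟨?_, hh⟩
      simp only [mem_product, mem_Icc, Fintype.mem_piFinset]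
      refine ⟨⟨⟨hq1, Nat.le_floor hq2⟩, ?_⟩, hq3, hq4⟩
      intro j
      have e1 : ((h j).natAbs : ℝ) ≤ X ^ η := by
        have : ((h j).natAbs : ℝ) = |(h j : ℝ)| := by
          rw [Nat.cast_natAbs]; push_cast; rfl
        rw [this]
        exact hh2 j
      have e2 : (h j).natAbs ≤ H := Nat.le_floor e1
      omega
    · rw [hbad]
      simp only [mem_filter]
      exact ⟨hw1, k, hk⟩
  have hcardJ : (J.card : ℝ) ≤ nQ * 3 ^ r * X ^ ((r + 1) * η) := by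
    have e1 : J.card ≤ H * (2 * H + 1) ^ r * nQ := by
      rw [hJ]
      refine (card_filter_le _ _).trans (le_of_eq ?_)
      rw [card_product, card_product, Nat.card_Icc, Fintype.card_piFinset, prod_const, card_univ,
        Fintype.card_fin, Int.card_Icc, Nat.card_Icc]
      congr 2
      congr 1
      omega
    have e2 : (J.card : ℝ) ≤ H * (2 * H + 1) ^ r * nQ := by exact_mod_cast e1
    refine e2.trans ?_
    have e3 : (2 * (H : ℝ) + 1) ≤ 3 * X ^ η := by linarith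
    have e4 : X ^ ((r + 1) * η) = X ^ η * (X ^ η) ^ r := by
      rw [← Real.rpow_natCast (X ^ η) r, ← Real.rpow_mul hX0.le, ← Real.rpow_add hX0]
      congr 1
      ring
    rw [e4]
    calc (H : ℝ) * (2 * H + 1) ^ r * nQ ≤ X ^ η * (3 * X ^ η) ^ r * nQ := by gcongr
      _ = _ := by rw [mul_pow]; ring
  have hbadp : ∀ p ∈ J, ((bad p).card : ℝ) ≤ X / B * X ^ (-((r + 3) * η)) := by
    intro p hp
    rw [hJ, mem_filter] at hp
    obtain ⟨hp1, hp2⟩ := hp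
    simp only [mem_product, mem_Icc, Fintype.mem_piFinset] at hp1
    obtain ⟨⟨⟨hq1, hq2⟩, hh⟩, hq3, hq4⟩ := hp1
    have hq2' : (p.1.1 : ℝ) ≤ X ^ η := (by exact_mod_cast hq2 : (p.1.1 : ℝ) ≤ H).trans hHX
    have hh' : ∀ j, |(p.1.2 j : ℝ)| ≤ X ^ η := by
      intro j
      have e1 : |((p.1.2 j : ℤ) : ℝ)| ≤ H := by
        rw [abs_le]
        constructor
        · have := (hh j).1
          exact_mod_cast this
        · have := (hh j).2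
          exact_mod_cast this
      exact e1.trans hHX
    obtain ⟨c', h1, h2, h3⟩ := hcombo p.1.1 hq1 hq2' p.1.2 hp2 hh'
    exact hone L K hL2 hK1 hK2 (fun t => ∑ j, (p.1.2 j : ℝ) * (f1 j t / p.1.1))
      (fun t => ∑ j, (p.1.2 j : ℝ) * (f2 j t / p.1.1)) c' h1 h2
      (fun t ht => hasDerivAt_combo f1 f2 p.1.2 p.1.1 t (hXd2 t ht)) h3 p.2 hq3 hq4
  have hY : X / B ≤ b * (n₁ + 1) * (b : ℝ) ^ K := by
    rw [div_le_iff₀ hB0]
    refine hK2.le.trans (le_of_eq ?_)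
    rw [pow_succ]; ring
  calc _ ≤ ((J.biUnion bad).card : ℝ) := by exact_mod_cast card_le_card hsub
    _ ≤ ((∑ p ∈ J, (bad p).card : ℕ) : ℝ) := by exact_mod_cast card_biUnion_le
    _ = ∑ p ∈ J, ((bad p).card : ℝ) := by push_cast; rfl
    _ ≤ ∑ p ∈ J, X / B * X ^ (-((r + 3) * η)) := sum_le_sum hbadp
    _ = J.card * (X / B * X ^ (-((r + 3) * η))) := by rw [sum_const, nsmul_eq_mul]
    _ ≤ nQ * 3 ^ r * X ^ ((r + 1) * η) * (b * (n₁ + 1) * (b : ℝ) ^ K * X ^ (-((r + 3) * η))) := by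
        gcongr
    _ = (b : ℝ) ^ K * (nQ * 3 ^ r * (b * (n₁ + 1)) * X ^ (-(2 * η))) := by
        have : X ^ (-(2 * η)) = X ^ ((r + 1) * η) * X ^ (-((r + 3) * η)) := by
          rw [← Real.rpow_add hX0]
          congr 1
          ring
        rw [this]
        ring
    _ ≤ (b : ℝ) ^ K * X ^ (-η) := by gcongr

end Pool.Agent.U602.SM
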