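import Pool.Agent.U602.SM.Combo
import Pool.Agent.U602.AU.Bound2
import Pool.Agent.U602.AU.Local

set_option autoImplicit false
set_option linter.unusedSectionVars false

/-! A block in which the frequencies are good. -/

namespace Pool.Agent.U602.SM

open Finset Filter Topology
open Pool.Agent.H469R2.NK (e norm_e e_add e_zero)
open Pool.Agent.W147.PS (ff ff_compare ev_pow)
open Pool.Agent.Y961.JR (crit_scaledJ)
open Pool.Agent.U602.AU (T W W_apply auto_gen card_ge)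

lemma hasDerivAt_combo {r : ℕ} (f f1 : Fin r → ℝ → ℝ) (h : Fin r → ℤ) (q : ℕ) (t : ℝ)
    (hd : ∀ j, HasDerivAt (f j) (f1 j t) t) :
    HasDerivAt (fun t => ∑ j, (h j : ℝ) * (f j t / q)) (∑ j, (h j : ℝ) * (f1 j t / q)) t := by
  apply HasDerivAt.fun_sum
  intro j _
  exact ((hd j).div_const _).const_mul _

section

variable {Q : Type} [Fintype Q] {b : ℕ} {δ : ℕ → Q → Q}

open scoped Classical in
theorem loc_smooth (hb : 2 ≤ b) (hfull : ∀ x z : Q, ∃ d < b, δ d x = z)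
    (r : ℕ) (hr : 1 ≤ r) (c : Fin r → ℝ) (cm : ℝ) (hc1 : ∀ j, 1 ≤ c j) (hcm : ∀ j, c j ≤ cm)
    (hc : Function.Injective c)
    (f f1 f2 : Fin r → ℝ → ℝ) (hd1 : ∀ j, ∀ᶠ t : ℝ in atTop, HasDerivAt (f j) (f1 j t) t)
    (hd2 : ∀ j, ∀ᶠ t : ℝ in atTop, HasDerivAt (f1 j) (f2 j t) t)
    (hord : ∀ j, ∀ σ : ℝ, 0 < σ → ∀ᶠ t : ℝ in atTop,
      t ^ (c j - 2 - σ) ≤ |f2 j t| ∧ |f2 j t| ≤ t ^ (c j - 2 + σ))
    (τ : ℝ) (hτ : 0 < τ) (hpos : ∀ j, ∀ᶠ t : ℝ in atTop, t ^ τ ≤ f j t)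
    (ε₁ : ℝ) (hε₁ : 0 < ε₁) (hε₂ : 4 * ε₁ ≤ 2 - cm) (D : ℝ) (hD : 1 ≤ D) :
    ∃ η₀ : ℝ, 0 < η₀ ∧ ∀ η : ℝ, 0 < η → η ≤ η₀ → ∃ κ : ℝ, 0 < κ ∧ ∀ᶠ X : ℝ in atTop,
      ∀ L N0 : ℕ, X ^ (ε₁ / 2) ≤ (b : ℝ) ^ (L + L) → (b : ℝ) ^ (L + L) ≤ X ^ ε₁ →
      X / D ≤ N0 → (N0 : ℝ) + (b : ℝ) ^ (L + L) ≤ X →
      (∀ q : ℕ, 1 ≤ q → (q : ℝ) ≤ X ^ η → ∀ h : Fin r → ℤ, h ≠ 0 → (∀ j, |(h j : ℝ)| ≤ X ^ η) →
        ∀ q₀ : ℕ, 1 ≤ q₀ → q₀ ≤ Fintype.card Q → ∀ k : ℤ, X ^ (-((r + 10) * η)) ≤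
          |q₀ * ((b : ℝ) ^ L * ∑ j, (h j : ℝ) * (f1 j N0 / q)) - k|) →
      ∀ x y : Q, ∃ m < b ^ (L + L), T b δ (L + L) m x = y ∧
        ∀ j, ∀ q : ℕ, q.Prime → κ * ff X < |(q : ℝ) - f j ((N0 + m : ℕ) : ℝ)| := by
  obtain ⟨C, a, hC, ha0, ha1, hW⟩ := auto_gen (δ := δ) hb hfull
  have hbR : (2 : ℝ) ≤ b := by exact_mod_cast hb
  have hlb : 0 < Real.log b := Real.log_pos (by linarith)
  have hla : Real.log a < 0 := Real.log_neg ha0 ha1
  set α : ℝ := -Real.log a / Real.log b with hα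
  have hα0 : 0 < α := div_pos (by linarith) hlb
  have hab : ∀ L : ℕ, a ^ L = ((b : ℝ) ^ (L + L)) ^ (-(α / 2)) := by
    intro L
    rw [← Real.rpow_natCast a, ← Real.rpow_natCast (b : ℝ), ← Real.rpow_mul (by linarith),
      Real.rpow_def_of_pos ha0, Real.rpow_def_of_pos (by linarith)]
    congr 1
    rw [hα]
    push_cast
    field_simp
    ring
  have hbL2 : ∀ L : ℕ, (b : ℝ) ^ L = (b : ℝ) ^ (L + L) * ((b : ℝ) ^ (L + L)) ^ (-(1 / 2) : ℝ) := by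
    intro L
    rw [← Real.rpow_natCast (b : ℝ) (L + L), ← Real.rpow_natCast (b : ℝ) L,
      ← Real.rpow_mul (by linarith), ← Real.rpow_add (by linarith)]
    congr 1
    push_cast
    ring
  -- the gap
  obtain ⟨g0, hg0, hgap⟩ : ∃ g0 : ℝ, 0 < g0 ∧ ∀ i j, i ≠ j → g0 ≤ |c i - c j| := by
    have h1 : ∀ p : Fin r × Fin r, ∃ g : ℝ, 0 < g ∧ (p.1 ≠ p.2 → g ≤ |c p.1 - c p.2|) := by
      intro p
      by_cases hp : p.1 = p.2
      · exact ⟨1, one_pos, fun h => absurd hp h⟩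
      · exact ⟨|c p.1 - c p.2|, abs_pos.2 (sub_ne_zero.2 fun h => hp (hc h)), fun _ => le_rfl⟩
    choose g hg hg2 using h1
    have hne : (univ : Finset (Fin r × Fin r)).Nonempty := ⟨(⟨0, hr⟩, ⟨0, hr⟩), mem_univ _⟩
    refine ⟨univ.inf' hne g, ?_, ?_⟩
    · rw [lt_inf'_iff]
      exact fun p _ => hg p
    · intro i j hij
      exact (inf'_le g (mem_univ (i, j))).trans (hg2 (i, j) hij)
  have hrR : (1 : ℝ) ≤ r := by exact_mod_cast hr
  refine ⟨min (min 1 (g0 / 4)) (min (min (τ / 4) (ε₁ / 4)) (min (ε₁ * α / 8) (ε₁ / (8 * (r + 11))))),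
    by positivity, ?_⟩
  intro η hη hηle
  have hη1 : η ≤ 1 := hηle.trans ((min_le_left _ _).trans (min_le_left _ _))
  have hη2 : η ≤ g0 / 4 := hηle.trans ((min_le_left _ _).trans (min_le_right _ _))
  have hη3 : η ≤ τ / 4 :=
    hηle.trans ((min_le_right _ _).trans ((min_le_left _ _).trans (min_le_left _ _)))
  have hη4 : η ≤ ε₁ / 4 :=
    hηle.trans ((min_le_right _ _).trans ((min_le_left _ _).trans (min_le_right _ _)))
  have hη5 : η ≤ ε₁ * α / 8 :=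
    hηle.trans ((min_le_right _ _).trans ((min_le_right _ _).trans (min_le_left _ _)))
  have hη6 : η ≤ ε₁ / (8 * (r + 11)) :=
    hηle.trans ((min_le_right _ _).trans ((min_le_right _ _).trans (min_le_right _ _)))
  rw [le_div_iff₀ (by positivity)] at hη6
  obtain ⟨κ, hκ, hcrit⟩ := crit_scaledJ r hr η hη hη1
  refine ⟨κ, hκ, ?_⟩
  have hD0 : 0 < D := by linarith
  have hd1' : ∀ᶠ t : ℝ in atTop, ∀ j, HasDerivAt (f j) (f1 j t) t := eventually_all.2 hd1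
  have hd2' : ∀ᶠ t : ℝ in atTop, ∀ j, HasDerivAt (f1 j) (f2 j t) t := eventually_all.2 hd2
  have hpos' : ∀ᶠ t : ℝ in atTop, ∀ j, t ^ τ ≤ f j t := eventually_all.2 hpos
  filter_upwards [hcrit, combo_bounds r c η D cm hη hD hc1 hcm
      (fun i j hij => by linarith [hgap i j hij]) f2 hord,
    unif D hD0 hd1', unif D hD0 hd2', unif D hD0 hpos',
    eventually_ge_atTop (1 : ℝ),
    ev_pow η τ (D ^ τ) (by linarith),
    ev_pow (cm - 2 + 3 * η + 2 * ε₁) (-η) (4 * Real.pi) (by linarith),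
    ev_pow (-(ε₁ * α / 4)) (-η) (4 * C * b) (by nlinarith [mul_pos hε₁ hα0]),
    ev_pow (-(ε₁ / 4) + (r + 10) * η) (-η) (4 * C * b) (by nlinarith),
    (tendsto_rpow_atTop (show 0 < ε₁ / 2 by positivity)).eventually_ge_atTop 2]
    with X hX hcombo hXd1 hXd2 hXpos hX1 p1 p2 p3 p4 p5
  intro L N0 hL1 hL2 hN1 hN2 hgood x y
  have hX0 : 0 < X := by linarith
  set B : ℝ := (b : ℝ) ^ (L + L) with hB
  have hB0 : 0 < B := by positivity
  have hL0 : 1 ≤ L := by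
    by_contra hlt
    have : L = 0 := by omega
    rw [hB, this] at hL1
    norm_num at hL1
    linarith
  obtain ⟨K, hK⟩ : ∃ K, L + L = K + 1 := ⟨L + L - 1, by omega⟩
  set s : Finset ℕ := (range (b ^ (L + L))).filter (fun m => T b δ (L + L) m x = y) with hs
  have hcard : b ^ K ≤ s.card := by
    rw [hs, hK]
    exact card_ge hfull K x y
  have hcardR : B / b ≤ s.card := by
    have h1 : B / b = (b : ℝ) ^ K := by
      rw [hB, hK, pow_succ, mul_div_cancel_right₀ _ (by linarith)]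
    rw [h1]
    exact_mod_cast hcard
  have hsne : s.Nonempty := by
    rw [← card_pos]
    have : 0 < b ^ K := by positivity
    omega
  have hsB : ∀ m ∈ s, (m : ℝ) ≤ B := by
    intro m hm
    rw [hs, mem_filter, mem_range] at hm
    have : ((m : ℕ) : ℝ) ≤ ((b ^ (L + L) : ℕ) : ℝ) := by exact_mod_cast hm.1.le
    refine this.trans (le_of_eq ?_)
    rw [hB]; push_cast; ring
  obtain ⟨m, hm, hgapm⟩ := hX ℕ s (fun m j => f j ((N0 + m : ℕ) : ℝ)) hsne (by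
    intro m hm j
    have e1 : X / D ≤ ((N0 + m : ℕ) : ℝ) := by
      push_cast
      have : (0 : ℝ) ≤ m := Nat.cast_nonneg m
      linarith
    refine le_trans ?_ (hXpos _ e1 j)
    have e2 : (X / D) ^ τ ≤ ((N0 + m : ℕ) : ℝ) ^ τ :=
      Real.rpow_le_rpow (by positivity) e1 hτ.le
    refine le_trans ?_ e2
    rw [Real.div_rpow hX0.le hD0.le, le_div_iff₀ (Real.rpow_pos_of_pos hD0 _), mul_comm]
    exact p1) (by
    intro q hq hqX h hh hhX
    have hq0 : (0 : ℝ) < q := by exact_mod_cast hq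
    obtain ⟨c', hc'1, hc'm, hcb⟩ := hcombo q hq hqX h hh hhX
    set F : ℝ → ℝ := fun t => ∑ j, (h j : ℝ) * (f j t / q) with hF
    set F1 : ℝ → ℝ := fun t => ∑ j, (h j : ℝ) * (f1 j t / q) with hF1
    set F2 : ℝ → ℝ := fun t => ∑ j, (h j : ℝ) * (f2 j t / q) with hF2
    set θ : ℝ := F1 N0 with hθ
    have happ : ∀ m ∈ s, |F ((N0 + m : ℕ) : ℝ) - (F N0 + θ * m)| ≤
        X ^ (cm - 2 + 3 * η) * B ^ 2 := by
      intro m hm
      have := linear_approx F F1 F2 N0 B (X ^ (cm - 2 + 3 * η)) hB0.le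
        (fun t ht1 ht2 => hasDerivAt_combo f f1 h q t (hXd1 t (hN1.trans ht1)))
        (fun t ht1 ht2 => hasDerivAt_combo f1 f2 h q t (hXd2 t (hN1.trans ht1)))
        (fun t ht1 ht2 => (hcb t (hN1.trans ht1) (ht2.trans hN2)).2.trans
          (Real.rpow_le_rpow_of_exponent_le hX1 (by linarith))) m (Nat.cast_nonneg m) (hsB m hm)
      push_cast
      exact this
    have hB2 : X ^ (cm - 2 + 3 * η) * B ^ 2 ≤ X ^ (cm - 2 + 3 * η + 2 * ε₁) := by
      have e1 : B ^ 2 ≤ (X ^ ε₁) ^ 2 := by gcongr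
      have e2 : (X ^ ε₁) ^ 2 = X ^ (2 * ε₁) := by
        rw [← Real.rpow_natCast, ← Real.rpow_mul hX0.le]
        congr 1
        push_cast
        ring
      rw [Real.rpow_add hX0 (cm - 2 + 3 * η) (2 * ε₁), ← e2]
      gcongr
    have herr : ‖∑ m ∈ s, e (F ((N0 + m : ℕ) : ℝ)) - ∑ m ∈ s, e (F N0 + θ * m)‖ ≤
        s.card * (X ^ (-η) / 2) := by
      rw [← sum_sub_distrib]
      refine (norm_sum_le _ _).trans ?_
      have e1 : ∀ m ∈ s, ‖e (F ((N0 + m : ℕ) : ℝ)) - e (F N0 + θ * m)‖ ≤ X ^ (-η) / 2 := by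
        intro m hm
        refine (e_sub_le _ _).trans ?_
        have e2 := (happ m hm).trans hB2
        have e3 : 2 * Real.pi * |F ((N0 + m : ℕ) : ℝ) - (F N0 + θ * m)| ≤
            2 * Real.pi * X ^ (cm - 2 + 3 * η + 2 * ε₁) := by gcongr
        linarith
      refine (sum_le_sum e1).trans (le_of_eq ?_)
      rw [sum_const, nsmul_eq_mul]
    set φ : Q → ℂ := fun z => if z = y then 1 else 0 with hφ
    have hφn : ‖φ‖ ≤ 1 := by
      rw [pi_norm_le_iff_of_nonneg zero_le_one]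
      intro z
      rw [hφ]
      simp only
      split_ifs <;> simp
    have e1 : ∑ m ∈ s, e (F N0 + θ * m) = e (F N0) * W b δ (L + L) θ φ x := by
      rw [W_apply, mul_sum, hs, sum_filter]
      refine sum_congr rfl fun m _ => ?_
      rw [hφ]
      simp only
      split_ifs with h1
      · rw [mul_one, ← e_add]
        congr 1
        ring
      · simp
    have hmain : ‖∑ m ∈ s, e (F N0 + θ * m)‖ ≤ s.card * (X ^ (-η) / 2) := by
      rw [e1, norm_mul, norm_e, one_mul]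
      refine (norm_le_pi_norm _ x).trans ?_
      refine (hW L L θ (X ^ (-((r + 10) * η))) φ (by positivity) (fun q₀ h1 h2 k =>
        hgood q hq hqX h hh hhX q₀ h1 h2 k)).trans ?_
      have e2 : a ^ L ≤ X ^ (-(ε₁ * α / 4)) := by
        rw [hab L]
        have h1 : -(ε₁ * α / 4) = ε₁ / 2 * (-(α / 2)) := by ring
        rw [h1, Real.rpow_mul hX0.le]
        exact Real.rpow_le_rpow_of_nonpos (by positivity) hL1 (by linarith)
      have e3 : (b : ℝ) ^ L / X ^ (-((r + 10) * η)) ≤ B * X ^ (-(ε₁ / 4) + (r + 10) * η) := by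
        rw [hbL2 L, ← hB, Real.rpow_neg hX0.le, div_inv_eq_mul]
        have h1 : -(ε₁ / 4) = ε₁ / 2 * (-(1 / 2)) := by ring
        rw [h1, Real.rpow_add hX0, Real.rpow_mul hX0.le (ε₁ / 2) (-(1 / 2))]
        have h2 : B ^ (-(1 / 2) : ℝ) ≤ (X ^ (ε₁ / 2)) ^ (-(1 / 2) : ℝ) :=
          Real.rpow_le_rpow_of_nonpos (by positivity) hL1 (by norm_num)
        calc B * B ^ (-(1 / 2) : ℝ) * X ^ ((r + 10) * η) =
            B * (B ^ (-(1 / 2) : ℝ) * X ^ ((r + 10) * η)) := by ring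
          _ ≤ B * ((X ^ (ε₁ / 2)) ^ (-(1 / 2) : ℝ) * X ^ ((r + 10) * η)) := by gcongr
      have e4 : C * (a ^ L * B + (b : ℝ) ^ L / X ^ (-((r + 10) * η))) * ‖φ‖ ≤
          C * (X ^ (-(ε₁ * α / 4)) * B + B * X ^ (-(ε₁ / 4) + (r + 10) * η)) * 1 := by
        gcongr
      refine e4.trans ?_
      calc C * (X ^ (-(ε₁ * α / 4)) * B + B * X ^ (-(ε₁ / 4) + (r + 10) * η)) * 1 =
          B / b * (4 * C * b * X ^ (-(ε₁ * α / 4)) +
            4 * C * b * X ^ (-(ε₁ / 4) + (r + 10) * η)) / 4 := by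
            field_simp
        _ ≤ B / b * (X ^ (-η) + X ^ (-η)) / 4 := by gcongr
        _ = B / b * (X ^ (-η) / 2) := by ring
        _ ≤ s.card * (X ^ (-η) / 2) := by gcongr
    have hfin : ‖∑ m ∈ s, e (F ((N0 + m : ℕ) : ℝ))‖ ≤ s.card * X ^ (-η) := by
      have h1 : ∑ m ∈ s, e (F ((N0 + m : ℕ) : ℝ)) =
          (∑ m ∈ s, e (F ((N0 + m : ℕ) : ℝ)) - ∑ m ∈ s, e (F N0 + θ * m)) +
            ∑ m ∈ s, e (F N0 + θ * m) := by ring
      rw [h1]
      refine (norm_add_le _ _).trans ?_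
      linarith
    exact hfin)
  rw [hs, mem_filter, mem_range] at hm
  exact ⟨m, hm.1, hm.2, hgapm⟩

end

end Pool.Agent.U602.SM
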