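import Pool.Agent.U602.SM.Good
import Pool.Agent.U602.AU.Main

set_option autoImplicit false
set_option linter.unusedSectionVars false

/-! Record gaps around the values of several smooth functions at the members of an automatic set. -/

namespace Pool.Agent.U602.SM

open Finset Filter Topology
open Pool.Agent.W147.PS (ff ff_compare ev_pow)
open Pool.Agent.U602.AU

section

variable {Q : Type} [Fintype Q] {b : ℕ} {δ : ℕ → Q → Q}

open scoped Classical in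
/-- record gaps around the values of smooth functions at many numbers leading to a recurrent state -/
theorem main_smooth (hb : 2 ≤ b) (s : ℕ → Q) (hs : ∀ n d, d < b → s (b * n + d) = δ d (s n))
    (F : Set Q) (n₁ : ℕ) (hn₁ : 1 ≤ n₁) (hF : s n₁ ∈ F) (hrec : Recu b δ (s n₁))
    (r : ℕ) (hr : 1 ≤ r) (c : Fin r → ℝ) (hc1 : ∀ j, 1 ≤ c j) (hc2 : ∀ j, c j < 2)
    (hc : Function.Injective c)
    (f f1 f2 : Fin r → ℝ → ℝ) (hd1 : ∀ j, ∀ᶠ t : ℝ in atTop, HasDerivAt (f j) (f1 j t) t)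
    (hd2 : ∀ j, ∀ᶠ t : ℝ in atTop, HasDerivAt (f1 j) (f2 j t) t)
    (hord : ∀ j, ∀ σ : ℝ, 0 < σ → ∀ᶠ t : ℝ in atTop,
      t ^ (c j - 2 - σ) ≤ |f2 j t| ∧ |f2 j t| ≤ t ^ (c j - 2 + σ))
    (τ : ℝ) (hτ : 0 < τ) (hpos : ∀ j, ∀ᶠ t : ℝ in atTop, t ^ τ ≤ f j t)
    (ε : ℝ) (hε : 0 < ε) (hε1 : ε ≤ 1) :
    ∃ κ : ℝ, 0 < κ ∧ ∀ᶠ X : ℝ in atTop, X ^ (1 - ε) ≤
      (((range (⌊X⌋₊ + 1)).filter (fun n => s n ∈ F ∧
        ∀ j, ∀ q : ℕ, q.Prime → κ * ff X < |(q : ℝ) - f j (n : ℝ)|)).card : ℝ) := by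
  have hb0 : 0 < b := by omega
  obtain ⟨t, ht1, S, hyS, hclosed, hall⟩ := exists_class hb0 (s n₁) hrec
  have hS : ∀ x ∈ S, ∀ m, T b δ t m x ∈ S := fun x hx m => hclosed x hx _ ⟨m, rfl⟩
  set b' : ℕ := b ^ t with hb'
  have hb'2 : 2 ≤ b' := by
    rw [hb']
    calc 2 ≤ b := hb
      _ = b ^ 1 := (pow_one b).symm
      _ ≤ b ^ t := Nat.pow_le_pow_right hb0 ht1
  have hb'0 : 0 < b' := by omega
  have hb'R : (2 : ℝ) ≤ b' := by exact_mod_cast hb'2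
  set δ' : ℕ → S → S := fun d x => ⟨T b δ t d x, hS x x.2 d⟩ with hδ'
  have hfull : ∀ x z : S, ∃ d < b', δ' d x = z := by
    intro x z
    obtain ⟨m, hm, hmz⟩ := Rc_lt hb0 (hall x x.2 z z.2)
    exact ⟨m, hm, Subtype.ext hmz⟩
  have hTb : ∀ (L m : ℕ) (x : S), ((T b' δ' L m x : S) : Q) = T b δ (t * L) m x :=
    fun L m x => T_block hb0 t S hS L m x
  have : Fintype S := Fintype.ofFinite S
  set y : S := ⟨s n₁, hyS⟩ with hy
  -- reading blocks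
  have hsy : ∀ (n k w : ℕ), s n = s n₁ → w < b' ^ k → T b' δ' k w y = y →
      s (b' ^ k * n + w) = s n₁ := by
    intro n k w hn hw hT
    have h1 := congrArg Subtype.val hT
    rw [hTb] at h1
    have h2 : b' ^ k = b ^ (t * k) := by rw [hb', pow_mul]
    rw [h2] at hw ⊢
    rw [s_T hb0 s hs _ _ _ hw, hn]
    exact h1
  -- the largest exponent
  obtain ⟨cm, hcm, hcm2⟩ : ∃ cm : ℝ, (∀ j, c j ≤ cm) ∧ cm < 2 := by
    have hne : (univ : Finset (Fin r)).Nonempty := ⟨⟨0, hr⟩, mem_univ _⟩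
    refine ⟨univ.sup' hne c, fun j => le_sup' c (mem_univ j), ?_⟩
    rw [sup'_lt_iff]
    exact fun j _ => hc2 j
  -- the gap
  obtain ⟨g0, hg0, hgap⟩ : ∃ g0 : ℝ, 0 < g0 ∧ ∀ i j, i ≠ j → g0 ≤ |c i - c j| := by
    have h1 : ∀ p : Fin r × Fin r, ∃ g : ℝ, 0 < g ∧ (p.1 ≠ p.2 → g ≤ |c p.1 - c p.2|) := by
      intro p
      by_cases hp : p.1 = p.2
      · exact ⟨1, one_pos, fun h => absurd hp h⟩
      · exact ⟨|c p.1 - c p.2|, abs_pos.2 (sub_ne_zero.2 fun h => hp (hc h)), fun _ => le_rfl⟩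
    choose g hg hg2 using h1
    have hne : (univ : Finset (Fin r × Fin r)).Nonempty := ⟨(⟨0, hr⟩, ⟨0, hr⟩), mem_univ _⟩
    refine ⟨univ.inf' hne g, ?_, ?_⟩
    · rw [lt_inf'_iff]
      exact fun p _ => hg p
    · intro i j hij
      exact (inf'_le g (mem_univ (i, j))).trans (hg2 (i, j) hij)
  set ε₁ : ℝ := min (ε / 2) (min ((2 - cm) / 4) (1 / 4)) with hε₁d
  have hε₁ : 0 < ε₁ := by
    have : 0 < 2 - cm := by linarith
    rw [hε₁d]
    positivity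
  have hε₁a : ε₁ ≤ ε / 2 := min_le_left _ _
  have hε₁b : ε₁ ≤ (2 - cm) / 4 := (min_le_right _ _).trans (min_le_left _ _)
  have hε₁c : ε₁ ≤ 1 / 4 := (min_le_right _ _).trans (min_le_right _ _)
  obtain ⟨η₀, hη₀, hloc⟩ := loc_smooth (δ := δ') hb'2 hfull r hr c cm hc1 hcm hc f f1 f2 hd1 hd2
    hord τ hτ hpos ε₁ hε₁ (by linarith) (2 * b') (by linarith)
  have hrR : (1 : ℝ) ≤ r := by exact_mod_cast hr
  set η : ℝ := min η₀ (min (g0 / 4) (ε₁ / (r + 6))) with hηd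
  have hη : 0 < η := by rw [hηd]; positivity
  have hη1 : η ≤ η₀ := min_le_left _ _
  have hη2 : η ≤ g0 / 4 := (min_le_right _ _).trans (min_le_left _ _)
  have hη3 : η ≤ ε₁ / (r + 6) := (min_le_right _ _).trans (min_le_right _ _)
  rw [le_div_iff₀ (by positivity)] at hη3
  obtain ⟨κ, hκ, hloc⟩ := hloc η hη hη1
  have hbad := bad_count b' hb'2 (Fintype.card S) r hr c cm hc1 hcm g0 hgap f1 f2 hd2 hord ε₁ η hε₁
    hη (by linarith) (by linarith) (by linarith) (by linarith) n₁ hn₁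
  refine ⟨κ, hκ, ?_⟩
  filter_upwards [hloc, hbad, eventually_ge_atTop (1 : ℝ),
    ev_pow (ε₁ / 2) ε₁ ((b' : ℝ) ^ 2) (by linarith),
    ev_pow ε₁ 1 ((n₁ : ℝ) + 1) (by linarith),
    ev_pow (1 - ε) (1 - ε₁) (((n₁ : ℝ) + 1) * (b' : ℝ) * (2 * b')) (by linarith),
    ev_pow (-η) 0 (2 * b') (by linarith)]
    with X hX hXbad hX1 h2 h3 h4 h5
  have hX0 : 0 < X := by linarith
  rw [Real.rpow_one] at h3
  rw [Real.rpow_zero] at h5
  -- the lengths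
  have hbb : (1 : ℝ) < (b' : ℝ) ^ 2 := by nlinarith
  have hXε : 1 ≤ X ^ ε₁ := Real.one_le_rpow hX1 (by positivity)
  obtain ⟨L, hL1, hL2⟩ := exists_nat_pow_near hXε hbb
  have hLL : ((b' : ℝ) ^ 2) ^ L = (b' : ℝ) ^ (L + L) := by rw [← pow_mul]; congr 1; ring
  rw [pow_succ, hLL] at hL2
  rw [hLL] at hL1
  have hn₁R : (1 : ℝ) ≤ n₁ := by exact_mod_cast hn₁
  have hBL0 : 0 < (b' : ℝ) ^ (L + L) := by positivity
  have hx1 : 1 ≤ X / (((n₁ : ℝ) + 1) * (b' : ℝ) ^ (L + L)) := by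
    rw [le_div_iff₀ (by positivity), one_mul]
    calc ((n₁ : ℝ) + 1) * (b' : ℝ) ^ (L + L) ≤ ((n₁ : ℝ) + 1) * X ^ ε₁ := by gcongr
      _ ≤ X := h3
  obtain ⟨K, hK1, hK2⟩ := exists_nat_pow_near hx1 (show (1 : ℝ) < b' by linarith)
  rw [le_div_iff₀ (by positivity)] at hK1
  rw [div_lt_iff₀ (by positivity)] at hK2
  have hL3 : X ^ (ε₁ / 2) ≤ (b' : ℝ) ^ (L + L) := by
    have e2 : (b' : ℝ) ^ 2 * X ^ (ε₁ / 2) < (b' : ℝ) ^ (L + L) * (b' : ℝ) ^ 2 :=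
      lt_of_le_of_lt h2 hL2
    rw [mul_comm] at e2
    exact (lt_of_mul_lt_mul_right e2 (by positivity)).le
  have hbad := hXbad L K hL1 hK1 hK2
  set N : ℕ → ℕ := fun w => b' ^ (L + L) * (b' ^ K * n₁ + w) with hN
  have hNe : ∀ w, ((N w : ℕ) : ℝ) = (b' : ℝ) ^ (L + L) * ((b' : ℝ) ^ K * n₁ + w) := by
    intro w
    rw [hN]
    push_cast
    ring
  have hNlo : ∀ w, X / (2 * b') ≤ ((N w : ℕ) : ℝ) := by
    intro w
    rw [hNe, div_le_iff₀ (by positivity)]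
    have e1 : (0 : ℝ) ≤ w := Nat.cast_nonneg w
    calc X ≤ (b' : ℝ) ^ (K + 1) * (((n₁ : ℝ) + 1) * (b' : ℝ) ^ (L + L)) := hK2.le
      _ ≤ (b' : ℝ) ^ (K + 1) * ((2 * n₁) * (b' : ℝ) ^ (L + L)) := by gcongr; linarith
      _ = (b' : ℝ) ^ (L + L) * ((b' : ℝ) ^ K * n₁ + 0) * (2 * b') := by rw [pow_succ]; ring
      _ ≤ _ := by gcongr
  have hNhi : ∀ w < b' ^ K, ((N w : ℕ) : ℝ) + (b' : ℝ) ^ (L + L) ≤ X := by
    intro w hw
    rw [hNe]
    have e1 : (w : ℝ) + 1 ≤ (b' : ℝ) ^ K := by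
      have : ((w + 1 : ℕ) : ℝ) ≤ ((b' ^ K : ℕ) : ℝ) := by exact_mod_cast hw
      push_cast at this
      exact this
    calc (b' : ℝ) ^ (L + L) * ((b' : ℝ) ^ K * n₁ + w) + (b' : ℝ) ^ (L + L) =
          (b' : ℝ) ^ (L + L) * ((b' : ℝ) ^ K * n₁ + (w + 1)) := by ring
      _ ≤ (b' : ℝ) ^ (L + L) * ((b' : ℝ) ^ K * n₁ + (b' : ℝ) ^ K) := by gcongr
      _ = (b' : ℝ) ^ K * (((n₁ : ℝ) + 1) * (b' : ℝ) ^ (L + L)) := by ring
      _ ≤ X := hK1
  -- the points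
  set G : Finset ℕ := (range (b' ^ K)).filter (fun w => T b' δ' K w y = y) with hG
  have hGcard : (b' : ℝ) ^ K / b' ≤ G.card := by
    rcases Nat.eq_zero_or_pos K with hK | hK
    · have e1 : (1 : ℝ) ≤ G.card := by
        have : 0 < G.card := by
          rw [card_pos]
          refine ⟨0, ?_⟩
          rw [hG, mem_filter, mem_range, hK]
          exact ⟨by simp, rfl⟩
        exact_mod_cast this
      rw [hK, pow_zero]
      refine le_trans ?_ e1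
      rw [div_le_one (by linarith)]
      linarith
    · obtain ⟨K', rfl⟩ : ∃ K', K = K' + 1 := ⟨K - 1, by omega⟩
      have e1 := card_ge hfull K' y y
      have e2 : (b' : ℝ) ^ (K' + 1) / b' = (b' : ℝ) ^ K' := by
        rw [pow_succ, mul_div_cancel_right₀ _ (by linarith)]
      rw [e2]
      have e3 : b' ^ K' ≤ G.card := by
        rw [hG]
        convert e1
      exact_mod_cast e3
  set P : ℕ → Prop := fun w => ∀ q : ℕ, 1 ≤ q → (q : ℝ) ≤ X ^ η →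
        ∀ h : Fin r → ℤ, h ≠ 0 → (∀ j, |(h j : ℝ)| ≤ X ^ η) →
        ∀ q₀ : ℕ, 1 ≤ q₀ → q₀ ≤ Fintype.card S → ∀ k : ℤ, X ^ (-((r + 10) * η)) ≤
          |q₀ * ((b' : ℝ) ^ L * ∑ j, (h j : ℝ) * (f1 j ((N w : ℕ) : ℝ) / q)) - k| with hP
  set G' : Finset ℕ := G.filter P with hG'
  have hG'card : (b' : ℝ) ^ K / (2 * b') ≤ G'.card := by
    have e1 : G.card ≤ G'.card + ((range (b' ^ K)).filter (fun w => ¬ P w)).card := by
      have e2 : G.card = G'.card + (G.filter (fun w => ¬ P w)).card := by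
        rw [hG', card_filter_add_card_filter_not]
      rw [e2]
      apply Nat.add_le_add_left
      apply card_le_card
      intro w hw
      rw [mem_filter] at hw ⊢
      refine ⟨?_, hw.2⟩
      rw [hG, mem_filter] at hw
      exact hw.1.1
    have e2 : (G.card : ℝ) ≤ G'.card + (((range (b' ^ K)).filter (fun w => ¬ P w)).card : ℝ) := by
      exact_mod_cast e1
    have e3 : (((range (b' ^ K)).filter (fun w => ¬ P w)).card : ℝ) ≤
        (b' : ℝ) ^ K * X ^ (-η) := hbad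
    have e4 : (b' : ℝ) ^ K * X ^ (-η) ≤ (b' : ℝ) ^ K / (2 * b') := by
      rw [le_div_iff₀ (by positivity)]
      have : 0 < (b' : ℝ) ^ K := by positivity
      nlinarith
    have e5 : (b' : ℝ) ^ K / b' = (b' : ℝ) ^ K / (2 * b') + (b' : ℝ) ^ K / (2 * b') := by
      field_simp
      ring
    rw [e5] at hGcard
    linarith
  have hpt : ∀ w ∈ G', ∃ m < b' ^ (L + L), T b' δ' (L + L) m y = y ∧
      ∀ j, ∀ q : ℕ, q.Prime → κ * ff X < |(q : ℝ) - f j ((N w + m : ℕ) : ℝ)| := by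
    intro w hw
    rw [hG', mem_filter, hG, mem_filter, mem_range] at hw
    exact hX L (N w) hL3 hL1 (hNlo w) (hNhi w hw.1.1) hw.2 y y
  choose! g hg1 hg2 hg3 using hpt
  have hGG : ∀ w ∈ G', w < b' ^ K ∧ T b' δ' K w y = y := by
    intro w hw
    rw [hG', mem_filter, hG, mem_filter, mem_range] at hw
    exact hw.1
  have hcardle : G'.card ≤ ((range (⌊X⌋₊ + 1)).filter (fun n => s n ∈ F ∧
        ∀ j, ∀ q : ℕ, q.Prime → κ * ff X < |(q : ℝ) - f j (n : ℝ)|)).card := by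
    apply card_le_card_of_injOn (fun w => N w + g w)
    · intro w hw
      have hwG : w ∈ G' := hw
      have hw' := hGG w hwG
      simp only [coe_filter, mem_range, Set.mem_ofPred_eq]
      have e1 : s (b' ^ K * n₁ + w) = s n₁ := hsy n₁ K w rfl hw'.1 hw'.2
      have e2 : s (N w + g w) = s n₁ :=
        hsy _ (L + L) _ e1 (hg1 w hwG) (hg2 w hwG)
      refine ⟨?_, ?_, hg3 w hwG⟩
      · apply Nat.lt_succ_of_le
        apply Nat.le_floor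
        push_cast
        have e4 : ((g w : ℕ) : ℝ) ≤ (b' : ℝ) ^ (L + L) := by
          have : ((g w : ℕ) : ℝ) ≤ ((b' ^ (L + L) : ℕ) : ℝ) := by exact_mod_cast (hg1 w hwG).le
          refine this.trans (le_of_eq (by push_cast; rfl))
        linarith [hNhi w hw'.1]
      · rw [e2]
        exact hF
    · intro w hw w' hw' hww
      have hwG : w ∈ G' := hw
      have hwG' : w' ∈ G' := hw'
      simp only [hN] at hww
      have hbL : 0 < b' ^ (L + L) := by positivity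
      have e1 : (b' ^ (L + L) * (b' ^ K * n₁ + w) + g w) / b' ^ (L + L) =
          (b' ^ (L + L) * (b' ^ K * n₁ + w') + g w') / b' ^ (L + L) := by rw [hww]
      rw [Nat.mul_add_div hbL, Nat.mul_add_div hbL, Nat.div_eq_of_lt (hg1 w hwG),
        Nat.div_eq_of_lt (hg1 w' hwG')] at e1
      omega
  have hfin : X ^ (1 - ε) ≤ (b' : ℝ) ^ K / (2 * b') := by
    rw [le_div_iff₀ (by positivity)]
    have e2 : ((n₁ : ℝ) + 1) * b' * (2 * b') * X ^ (1 - ε) * (b' : ℝ) ^ (L + L) ≤ X := by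
      calc _ ≤ X ^ (1 - ε₁) * X ^ ε₁ := by gcongr
        _ = X := by
          rw [← Real.rpow_add hX0]
          have : 1 - ε₁ + ε₁ = 1 := by ring
          rw [this, Real.rpow_one]
    have e3 : (((n₁ : ℝ) + 1) * (b' : ℝ) ^ (L + L) * b') * (X ^ (1 - ε) * (2 * b')) <
        (((n₁ : ℝ) + 1) * (b' : ℝ) ^ (L + L) * b') * (b' : ℝ) ^ K := by
      calc _ = ((n₁ : ℝ) + 1) * b' * (2 * b') * X ^ (1 - ε) * (b' : ℝ) ^ (L + L) := by ring
        _ ≤ X := e2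
        _ < (b' : ℝ) ^ (K + 1) * (((n₁ : ℝ) + 1) * (b' : ℝ) ^ (L + L)) := hK2
        _ = _ := by rw [pow_succ]; ring
    exact (lt_of_mul_lt_mul_left e3 (by positivity)).le
  calc X ^ (1 - ε) ≤ (b' : ℝ) ^ K / (2 * b') := hfin
    _ ≤ G'.card := hG'card
    _ ≤ _ := by exact_mod_cast hcardle

end

open scoped Classical in
/-- record gaps around the values of several smooth functions at the members of an automatic set -/
theorem main_kernel (b : ℕ) (hb : 2 ≤ b) (A : Set ℕ)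
    (hA : {B : Set ℕ | ∃ k r : ℕ, r < b ^ k ∧ B = {n : ℕ | b ^ k * n + r ∈ A}}.Finite)
    (a : ℝ) (ha : 0 < a)
    (hd : ∀ H : ℕ, ∃ u v : ℕ, u + H ≤ v ∧
      a * ((v : ℝ) - u) ≤ ((Ioc u v).filter (fun n => n ∈ A)).card)
    (r : ℕ) (hr : 1 ≤ r) (c : Fin r → ℝ) (hc1 : ∀ j, 1 ≤ c j) (hc2 : ∀ j, c j < 2)
    (hc : Function.Injective c)
    (f f1 f2 : Fin r → ℝ → ℝ) (hd1 : ∀ j, ∀ᶠ t : ℝ in atTop, HasDerivAt (f j) (f1 j t) t)
    (hd2 : ∀ j, ∀ᶠ t : ℝ in atTop, HasDerivAt (f1 j) (f2 j t) t)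
    (hord : ∀ j, ∀ σ : ℝ, 0 < σ → ∀ᶠ t : ℝ in atTop,
      t ^ (c j - 2 - σ) ≤ |f2 j t| ∧ |f2 j t| ≤ t ^ (c j - 2 + σ))
    (τ : ℝ) (hτ : 0 < τ) (hpos : ∀ j, ∀ᶠ t : ℝ in atTop, t ^ τ ≤ f j t)
    (ε : ℝ) (hε : 0 < ε) :
    ∃ κ : ℝ, 0 < κ ∧ ∀ᶠ X : ℝ in atTop, X ^ (1 - ε) ≤
      (((range (⌊X⌋₊ + 1)).filter (fun n => n ∈ A ∧
        ∀ j, ∀ q : ℕ, q.Prime → κ * ff X < |(q : ℝ) - f j (n : ℝ)|)).card : ℝ) := by
  set 𝒦 : Set (Set ℕ) := {B : Set ℕ | ∃ k r : ℕ, r < b ^ k ∧ B = {n : ℕ | b ^ k * n + r ∈ A}} with h𝒦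
  have : Finite 𝒦 := hA
  have : Fintype 𝒦 := Fintype.ofFinite _
  have hA𝒦 : A ∈ 𝒦 := ⟨0, 0, by simp, by simp⟩
  have hstep : ∀ B ∈ 𝒦, ∀ d < b, {n : ℕ | b * n + d ∈ B} ∈ 𝒦 := by
    rintro B ⟨k, r, hr, rfl⟩ d hd
    refine ⟨k + 1, b ^ k * d + r, ?_, ?_⟩
    · calc b ^ k * d + r < b ^ k * d + b ^ k := by omega
        _ = b ^ k * (d + 1) := by ring
        _ ≤ b ^ k * b := Nat.mul_le_mul_left _ hd
        _ = b ^ (k + 1) := (pow_succ _ _).symm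
    · ext n
      simp only [Set.mem_ofPred_eq]
      have : b ^ k * (b * n + d) + r = b ^ (k + 1) * n + (b ^ k * d + r) := by
        rw [pow_succ]; ring
      rw [this]
  let δ : ℕ → (𝒦 → Prop) → (𝒦 → Prop) := fun d x B =>
    if h : d < b then x ⟨{n : ℕ | b * n + d ∈ (B : Set ℕ)}, hstep B B.2 d h⟩ else False
  let s : ℕ → (𝒦 → Prop) := fun n B => n ∈ (B : Set ℕ)
  have hs : ∀ n d, d < b → s (b * n + d) = δ d (s n) := by
    intro n d hd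
    funext B
    simp only [s, δ, dif_pos hd, Set.mem_ofPred_eq]
  let F : Set (𝒦 → Prop) := {x | x ⟨A, hA𝒦⟩}
  have hF : ∀ n, s n ∈ F ↔ n ∈ A := fun n => Iff.rfl
  obtain ⟨n₁, hn1, hnF, hrec⟩ := exists_recu_mem hb s hs F a ha hd
  obtain ⟨κ, hκ, h⟩ := main_smooth hb s hs F n₁ hn1 hnF hrec r hr c hc1 hc2 hc f f1 f2 hd1 hd2
    hord τ hτ hpos (min ε 1) (by positivity) (min_le_right _ _)
  refine ⟨κ, hκ, ?_⟩
  filter_upwards [h, eventually_ge_atTop (1 : ℝ)] with X hX hX1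
  refine le_trans ?_ hX
  apply Real.rpow_le_rpow_of_exponent_le hX1
  have := min_le_left ε 1
  linarith

end Pool.Agent.U602.SM
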